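import Pool.Agent.N513.CE.Stm

/-!
# Project CE, leaf STR: two automorphisms of `R × R`
-/

set_option autoImplicit false

namespace Pool.Agent.N234.CE

open Pool.Agent.N513.CE

theorem t_STR : S_STR := by
  intro R _ e t he ht htt
  have h1 : e * (1 - e) = 0 := by rw [mul_sub, mul_one, he, sub_self]
  have h2 : (1 - e) * e = 0 := by rw [sub_mul, one_mul, he, sub_self]
  have h3 : e * (e * t) = e * t := by rw [← mul_assoc, he]
  have h4 : e * t + e * t = e := by rw [← mul_add, htt, mul_one]
  have h5 : t * e = e * t := ht e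
  have h6 : e * t * e = e * t := by rw [mul_assoc, h5, h3]
  have g1 : (1 + e) * (1 - e * t) = 1 := by
    have : (1 + e) * (1 - e * t) = 1 + e - (e * t + e * (e * t)) := by noncomm_ring
    rw [this, h3, h4, add_sub_cancel_right]
  have g2 : (1 - e * t) * (1 + e) = 1 := by
    have : (1 - e * t) * (1 + e) = 1 + e - (e * t + e * t * e) := by noncomm_ring
    rw [this, h6, h4, add_sub_cancel_right]
  have k1 : ∀ x : R, x * e * e = x * e := fun x => by rw [mul_assoc, he]
  refine ⟨
    { toFun := fun x => (x.1 * (1 - e) - x.2 * e, x.1 * e + x.2 * (1 - e - e))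
      invFun := fun x => (x.1 * (1 - e - e) + x.2 * e, -(x.1 * e) + x.2 * (1 - e))
      left_inv := ?_
      right_inv := ?_
      map_add' := ?_ },
    { toFun := fun x => (x.1 * (1 + e), x.2 * (1 - e * t))
      invFun := fun x => (x.1 * (1 - e * t), x.2 * (1 + e))
      left_inv := ?_
      right_inv := ?_
      map_add' := ?_ }, fun x => rfl, fun x => rfl⟩
  · rintro ⟨x, y⟩
    ext
    · show (x * (1 - e) - y * e) * (1 - e - e) + (x * e + y * (1 - e - e)) * e = x
      simp only [mul_sub, sub_mul, add_mul, mul_add, mul_one, one_mul, k1]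
      abel
    · show -((x * (1 - e) - y * e) * e) + (x * e + y * (1 - e - e)) * (1 - e) = y
      simp only [mul_sub, sub_mul, add_mul, mul_add, mul_one, one_mul, k1]
      abel
  · rintro ⟨x, y⟩
    ext
    · show (x * (1 - e - e) + y * e) * (1 - e) - (-(x * e) + y * (1 - e)) * e = x
      simp only [mul_sub, sub_mul, add_mul, mul_add, mul_one, one_mul, neg_mul, k1]
      abel
    · show (x * (1 - e - e) + y * e) * e + (-(x * e) + y * (1 - e)) * (1 - e - e) = y
      simp only [mul_sub, sub_mul, add_mul, mul_add, mul_one, one_mul, neg_mul, k1]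
      abel
  · rintro ⟨x, y⟩ ⟨x', y'⟩
    ext
    · show (x + x') * (1 - e) - (y + y') * e = x * (1 - e) - y * e + (x' * (1 - e) - y' * e)
      simp only [add_mul]
      abel
    · show (x + x') * e + (y + y') * (1 - e - e) =
        x * e + y * (1 - e - e) + (x' * e + y' * (1 - e - e))
      simp only [add_mul]
      abel
  · rintro ⟨x, y⟩
    ext
    · show x * (1 + e) * (1 - e * t) = x
      rw [mul_assoc, g1, mul_one]
    · show y * (1 - e * t) * (1 + e) = y
      rw [mul_assoc, g2, mul_one]
  · rintro ⟨x, y⟩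
    ext
    · show x * (1 - e * t) * (1 + e) = x
      rw [mul_assoc, g2, mul_one]
    · show y * (1 + e) * (1 - e * t) = y
      rw [mul_assoc, g1, mul_one]
  · rintro ⟨x, y⟩ ⟨x', y'⟩
    ext
    · show (x + x') * (1 + e) = x * (1 + e) + x' * (1 + e)
      rw [add_mul]
    · show (y + y') * (1 - e * t) = y * (1 - e * t) + y' * (1 - e * t)
      rw [add_mul]

end Pool.Agent.N234.CE
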